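import Pool.Agent.Work.MP_9ec5dc_an.Defs
import Pool.Agent.Work.MP_9ec5dc_an.PartC

set_option autoImplicit false

namespace Pool.Agent.Results.MP_9ec5dc_an.Q1Yes

open Filter Pool.Agent.Work.MP_9ec5dc_an

/-- Q1: if `E` is any compact plane set (connected or not) of transfinite diameter one, that is
`nthDiameter E m → 1` as `m → ∞`, then for every `n ≥ 2` there are `n` points of `E` with product of
mutual distances at least `n^(n/2)`, and hence `nthDiameter E n ≥ n^(1/(n-1))`. -/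
theorem result (E : Set ℂ) (hE : IsCompact E)
    (hd : Tendsto (fun m : ℕ => nthDiameter E m) atTop (nhds 1)) (n : ℕ) (hn : 2 ≤ n) :
    (∃ w : Fin n → ℂ, (∀ i, w i ∈ E) ∧ (n : ℝ) ^ ((n : ℝ) / 2) ≤ distProd w) ∧
    (n : ℝ) ^ (1 / ((n : ℝ) - 1)) ≤ nthDiameter E n :=
  main E hE hd n hn

end Pool.Agent.Results.MP_9ec5dc_an.Q1Yes
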