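import Pool.Agent.Work.MP_9ec5dc_an.Defs
import Pool.Agent.Work.MP_9ec5dc_an.Q2I

set_option autoImplicit false

namespace Pool.Agent.Results.MP_9ec5dc_an.Q2Yes

open Filter Pool.Agent.Work.MP_9ec5dc_an

/-- Q2, with the absolute constant `K = 8 e`: if `E` is a connected compact plane set of transfinite
diameter one, that is `nthDiameter E m → 1` as `m → ∞`, then
`nthDiameter E n ^ (n - 1) ≤ 8 e n` for every `n ≥ 2`. -/
theorem result (E : Set ℂ) (hE : IsCompact E) (hconn : IsConnected E)
    (hd : Tendsto (fun m : ℕ => nthDiameter E m) atTop (nhds 1)) (n : ℕ) (hn : 2 ≤ n) :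
    nthDiameter E n ^ (n - 1) ≤ (8 * Real.exp 1) * n :=
  main2 E hE hconn.isPreconnected hd n hn

end Pool.Agent.Results.MP_9ec5dc_an.Q2Yes
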